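import Pool.Agent.W550.LG.PartVT3
import Pool.Agent.W249.LG.T3

/-!
# Laugwitz' problem, Part V: the ODE theorem.
-/

namespace Pool.Agent.W550.LG

theorem partV : PartV := partV_of_T3 Pool.Agent.W249.LG.T_T3

end Pool.Agent.W550.LG
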