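import Mathlib

/-!
# Laugwitz' problem, Part V: an ODE theorem. Definitions and statements of the parts.

Everything here is about the linear system
`c' = a`, `a' = t lam a - c + lam <beta, psi>`, `psi' = - lam a beta`
on an interval, with smooth data `lam`, `beta` and a large parameter `t > 0`.
-/

open Set

namespace Pool.Agent.W550.LG

/-- A solution on `[s0, s1]`, with the initial values `(1, 0, 0)` at `s0`. -/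
structure Sol {q : ℕ} (lam : ℝ → ℝ) (beta : ℝ → EuclideanSpace ℝ (Fin q)) (t s0 s1 : ℝ)
    (c a : ℝ → ℝ) (psi : ℝ → EuclideanSpace ℝ (Fin q)) : Prop where
  c0 : c s0 = 1
  a0 : a s0 = 0
  psi0 : psi s0 = 0
  dc : ∀ s ∈ Icc s0 s1, HasDerivAt c (a s) s
  da : ∀ s ∈ Icc s0 s1,
    HasDerivAt a (t * lam s * a s - c s + lam s * inner ℝ (beta s) (psi s)) s
  dpsi : ∀ s ∈ Icc s0 s1, HasDerivAt psi (-(lam s * a s) • beta s) s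

/-- The function `Lam` goes up, down and up again, at the points `p0 < p1 < p2 < p3`. -/
def UDU (Lam : ℝ → ℝ) (p0 p1 p2 p3 : ℝ) : Prop :=
  p0 < p1 ∧ p1 < p2 ∧ p2 < p3 ∧ Lam p0 < Lam p1 ∧ Lam p2 < Lam p1 ∧ Lam p2 < Lam p3

/-- **Part V.** If a primitive `Lam` of `lam` goes up, down and up again, then for some `t > 0` some
solution with initial values `(1, 0, 0)` reaches a value `c > 1`. -/
def PartV : Prop := ∀ (q : ℕ) (A B p0 p1 p2 p3 : ℝ) (lam Lam : ℝ → ℝ)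
  (beta : ℝ → EuclideanSpace ℝ (Fin q)),
  ContDiffOn ℝ (⊤ : ℕ∞) lam (Ioo A B) → ContDiffOn ℝ (⊤ : ℕ∞) beta (Ioo A B) →
  (∀ s ∈ Ioo A B, HasDerivAt Lam (lam s) s) → A < p0 → p3 < B → UDU Lam p0 p1 p2 p3 →
  ∃ t > 0, ∃ s0 s1, p0 ≤ s0 ∧ s0 < s1 ∧ s1 ≤ p3 ∧
    ∀ c a psi, Sol lam beta t s0 s1 c a psi → ∃ s ∈ Icc s0 s1, 1 < c s

/-- Part V for functions on the whole real line. -/
def PartVg : Prop := ∀ (q : ℕ) (p0 p1 p2 p3 : ℝ) (lam Lam : ℝ → ℝ)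
  (beta : ℝ → EuclideanSpace ℝ (Fin q)),
  ContDiff ℝ (⊤ : ℕ∞) lam → ContDiff ℝ (⊤ : ℕ∞) beta →
  (∀ s, HasDerivAt Lam (lam s) s) → UDU Lam p0 p1 p2 p3 →
  ∃ t > 0, ∃ s0 s1, p0 ≤ s0 ∧ s0 < s1 ∧ s1 ≤ p3 ∧
    ∀ c a psi, Sol lam beta t s0 s1 c a psi → ∃ s ∈ Icc s0 s1, 1 < c s

/-- LG-EXT: reduction to functions on the whole line (smooth cut-off). -/
def S_EXT : Prop := PartVg → PartV

/-! ## Reduction to a perturbed scalar equation -/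

/-- `c' = a`, `a' = t (lam k) a - c + th` on `[s0, s1]`, `c = 1` and `a = 0` at `s0`, where `k` is
close to `1` and `th` is small compared with the maximum of `|c|` up to the present. -/
structure Pert (t C : ℝ) (lam k c a th : ℝ → ℝ) (s0 s1 : ℝ) : Prop where
  c0 : c s0 = 1
  a0 : a s0 = 0
  dc : ∀ s ∈ Icc s0 s1, HasDerivAt c (a s) s
  da : ∀ s ∈ Icc s0 s1, HasDerivAt a (t * (lam s * k s) * a s - c s + th s) s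
  k_cont : Continuous k
  th_cont : Continuous th
  k_le : ∀ s, k s ≤ 1
  le_k : ∀ s ∈ Icc s0 s1, 1 - C / t ^ 2 ≤ k s
  th_le : ∀ s ∈ Icc s0 s1, ∀ M, (∀ r ∈ Icc s0 s, |c r| ≤ M) → |th s| ≤ C / t * |lam s| * M
  a_le : ∀ s ∈ Icc s0 s1, ∀ M, (∀ r ∈ Icc s0 s, |c r| ≤ M) → |a s| ≤ C * t * M

/-- LG-RED: reduction of the system to the perturbed scalar equation. -/
def S_RED : Prop := ∀ (q : ℕ) (p0 p3 : ℝ) (lam : ℝ → ℝ) (beta : ℝ → EuclideanSpace ℝ (Fin q)),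
  ContDiff ℝ (⊤ : ℕ∞) lam → ContDiff ℝ (⊤ : ℕ∞) beta → p0 < p3 →
  ∃ C : ℝ, 1 ≤ C ∧ ∀ t, C ≤ t → ∀ s0 s1, p0 ≤ s0 → s0 < s1 → s1 ≤ p3 →
    ∀ c a psi, Sol lam beta t s0 s1 c a psi → ∃ k th, Pert t C lam k c a th s0 s1

/-! ## The integral operator -/

/-- `T f (s)` is the integral of `exp (L σ - L r) f(r)` over `al < r < σ < s`. -/
noncomputable def T (L : ℝ → ℝ) (al : ℝ) (f : ℝ → ℝ) (s : ℝ) : ℝ :=
  ∫ σ in al..s, ∫ r in al..σ, Real.exp (L σ - L r) * f r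

/-- LG-REP: integral representation of solutions (variation of constants). -/
def S_REP : Prop := ∀ (l L c a g : ℝ → ℝ) (al om : ℝ), al ≤ om → Continuous l →
  (∀ s, HasDerivAt L (l s) s) → ContinuousOn g (Icc al om) →
  (∀ s ∈ Icc al om, HasDerivAt c (a s) s) →
  (∀ s ∈ Icc al om, HasDerivAt a (l s * a s - g s) s) → a al = 0 → c al = 1 →
  ∀ s ∈ Icc al om, c s = 1 - T L al g s ∧
    a s = - ∫ r in al..s, Real.exp (L s - L r) * g r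

/-- `al < b < a2 < om`, with an upward swing `[al, b]`, a downward swing `[b, a2]` and an upward
swing `[a2, om]` of size at least `h`, and no counter-swings of size larger than `d`. -/
structure Trip (L : ℝ → ℝ) (h d al b a2 om : ℝ) : Prop where
  lt1 : al < b
  lt2 : b < a2
  lt3 : a2 < om
  up1 : L al + h ≤ L b
  down : L a2 + h ≤ L b
  up2 : L a2 + h ≤ L om
  near1 : ∀ r s, al ≤ r → r ≤ s → s ≤ b → L r - d ≤ L s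
  near2 : ∀ r s, b ≤ r → r ≤ s → s ≤ a2 → L s ≤ L r + d
  near3 : ∀ r s, a2 ≤ r → r ≤ s → s ≤ om → L r - d ≤ L s

/-- LG-T3: the third iterate of the operator is small compared with the second one. -/
def S_T3 : Prop := ∀ (L : ℝ → ℝ) (h d al b a2 om : ℝ), Continuous L → 0 ≤ d →
  Trip L h d al b a2 om → ∀ s ∈ Icc al om,
    T L al (T L al (T L al 1)) s ≤
      3 / 2 * Real.exp d * (om - al) ^ 2 * T L al (T L al 1) s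

/-- LG-T1: the first iterate is small compared with the second one (at the end point). -/
def S_T1 : Prop := ∀ (L : ℝ → ℝ) (K h d al b a2 om : ℝ), Continuous L → 0 < K → 4 ≤ h →
  (∀ r ∈ Icc al om, ∀ s ∈ Icc al om, |L r - L s| ≤ K * |r - s|) →
  Trip L h d al b a2 om →
    T L al 1 om ≤ 3 * K ^ 2 * Real.exp (2 - h) * T L al (T L al 1) om

/-- LG-T2: for a nearly monotone function the second iterate is small compared with the first. -/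
def S_T2 : Prop := ∀ (L : ℝ → ℝ) (d al b : ℝ), Continuous L → 0 ≤ d → al ≤ b →
  (∀ r s, al ≤ r → r ≤ s → s ≤ b → L r - d ≤ L s) → ∀ s ∈ Icc al b,
    T L al (T L al 1) s ≤ 1 / 2 * Real.exp d * (b - al) ^ 2 * T L al 1 s ∧
    (∫ r in al..s, Real.exp (L s - L r) * T L al 1 r) ≤
      1 / 2 * Real.exp d * (b - al) ^ 2 * ∫ r in al..s, Real.exp (L s - L r)

/-- LG-LA (Lemma A): a clean short triple. -/
def S_LA : Prop := ∀ (p0 p3 K C : ℝ) (lam Lam : ℝ → ℝ), Continuous lam →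
  (∀ s, HasDerivAt Lam (lam s) s) → p0 < p3 → 1 ≤ K → (∀ s ∈ Icc p0 p3, |lam s| ≤ K) → 1 ≤ C →
  ∃ t1 : ℝ, 1 ≤ t1 ∧ ∀ t, t1 ≤ t → ∀ h d al b a2 om : ℝ, p0 ≤ al → om ≤ p3 → 0 < h → 0 ≤ d →
    Trip Lam h d al b a2 om → Real.exp (t * d) * (om - al) ^ 2 ≤ 1 / 64 →
    400 * (1 + t * K) ^ 2 ≤ Real.exp (t * h) →
    ∀ k c a th, Pert t C lam k c a th al om → 1 < c om

/-! ## Weakly monotone triples -/

/-- The perturbed scalar equation on `[x, y]`; `N` bounds the earlier values of `|c|`. -/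
structure Sys (t C N : ℝ) (lam k c a th : ℝ → ℝ) (x y : ℝ) : Prop where
  dc : ∀ s ∈ Icc x y, HasDerivAt c (a s) s
  da : ∀ s ∈ Icc x y, HasDerivAt a (t * (lam s * k s) * a s - c s + th s) s
  k_cont : Continuous k
  th_cont : Continuous th
  k_le : ∀ s ∈ Icc x y, k s ≤ 1
  le_k : ∀ s ∈ Icc x y, 1 / 2 ≤ k s
  th_le : ∀ s ∈ Icc x y, ∀ M, N ≤ M → (∀ r ∈ Icc x s, |c r| ≤ M) →
    |th s| ≤ C / t * |lam s| * M

/-- LG-B1: the end of the first upward swing. -/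
def S_B1 : Prop := ∀ (s0 b : ℝ) (lam Lam : ℝ → ℝ), ContDiff ℝ (⊤ : ℕ∞) lam →
  (∀ s, HasDerivAt Lam (lam s) s) → s0 < b → b - s0 ≤ 1 / 10 → (∀ s ∈ Icc s0 b, 0 ≤ lam s) →
  lam b = 0 → Lam s0 < Lam b → ∀ C : ℝ, 1 ≤ C →
  ∃ t1 g γ : ℝ, 1 ≤ t1 ∧ 0 < g ∧ 0 < γ ∧ ∀ t, t1 ≤ t → ∀ k c a th, Pert t C lam k c a th s0 b →
    c b < 0 ∧ a b < 0 ∧ g / Real.sqrt t * |a b| ≤ |c b| ∧ |c b| ≤ 3 / 2 * (b - s0) * |a b| ∧
    Real.exp (γ * t) ≤ |a b| ∧ ∀ s ∈ Icc s0 b, |c s| ≤ 3 * |c b|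

/-- LG-ROT: where `lam = 0` the solution is a rotation. -/
def S_ROT : Prop := ∀ (t C N x y : ℝ) (lam k c a th : ℝ → ℝ), 0 < t → x ≤ y →
  (∀ s ∈ Icc x y, lam s = 0) → Sys t C N lam k c a th x y → ∀ s ∈ Icc x y,
    c s = c x * Real.cos (s - x) + a x * Real.sin (s - x) ∧
    a s = a x * Real.cos (s - x) - c x * Real.sin (s - x)

/-- LG-D1: the first layer of the downward swing. -/
def S_D1 : Prop := ∀ (x y z : ℝ) (lam Lam : ℝ → ℝ), Continuous lam →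
  (∀ s, HasDerivAt Lam (lam s) s) → x < z → z ≤ y → (∀ s ∈ Icc x y, lam s ≤ 0) →
  (∀ s ∈ Ioc x y, Lam s < Lam x) → ∀ C g G ε : ℝ, 1 ≤ C → 0 < g → 0 < G → G < Real.pi → 0 < ε →
  ∃ t1 c1 C2 : ℝ, 1 ≤ t1 ∧ 0 < c1 ∧ 1 ≤ C2 ∧ ∀ t, t1 ≤ t → ∀ k c a th, ∀ N θ : ℝ, 0 < N →
    Sys t C N lam k c a th x y → g / Real.sqrt t ≤ θ → θ ≤ Real.pi - G →
    c x = - N * Real.sin θ → a x = - N * Real.cos θ →
    ∃ s1 ∈ Icc x z, (∀ s ∈ Icc x s1, c s < 0 ∧ |c s| ≤ C2 * N ∧ c1 / Real.sqrt t * N ≤ |c s|) ∧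
      |a s1| ≤ ε * |c s1|

/-- LG-D2: the middle of the downward swing. -/
def S_D2 : Prop := ∀ (x y Φ : ℝ) (lam Lam : ℝ → ℝ), Continuous lam →
  (∀ s, HasDerivAt Lam (lam s) s) → x < y → (∀ s ∈ Icc x y, lam s ≤ 0) → 0 < Φ →
  Φ < Real.pi / 2 → (∀ s, x ≤ s → s + Φ ≤ y → Lam (s + Φ) < Lam s) → ∀ C : ℝ, 1 ≤ C →
  ∃ ε0 : ℝ, 0 < ε0 ∧ ∀ ε, 0 < ε → ε ≤ ε0 → ∃ C2 : ℝ, 1 ≤ C2 ∧ ∀ c1 C3 : ℝ, 0 < c1 → 1 ≤ C3 →
    ∃ t1 : ℝ, 1 ≤ t1 ∧ ∀ t, t1 ≤ t → ∀ k c a th, ∀ N s1 : ℝ, 0 < N → s1 ∈ Icc x y →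
      Sys t C N lam k c a th s1 y → c s1 < 0 → |a s1| ≤ ε * |c s1| →
      c1 / Real.sqrt t * N ≤ |c s1| → |c s1| ≤ C3 * N →
      ∀ s ∈ Icc s1 y, c s < 0 ∧ |c s1| ≤ C2 * |c s| ∧ |c s| ≤ C2 * |c s1| ∧
        - (ε * |c s|) ≤ a s ∧ a s ≤ C2 * |c s| ∧ (s1 + 3 * ε ≤ s → 0 ≤ a s)

/-- LG-D3: the last layer of the downward swing. -/
def S_D3 : Prop := ∀ (x y : ℝ) (lam : ℝ → ℝ), ContDiff ℝ (⊤ : ℕ∞) lam → x < y →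
  (∀ s ∈ Icc x y, lam s ≤ 0) → lam y = 0 → ∀ C c1 C2 : ℝ, 1 ≤ C → 0 < c1 → 1 ≤ C2 →
  ∃ t1 c2 : ℝ, 1 ≤ t1 ∧ 0 < c2 ∧ ∀ t, t1 ≤ t → ∀ k c a th, ∀ N : ℝ, 0 < N →
    Sys t C N lam k c a th x y →
    (∀ s ∈ Icc x y, c s < 0 ∧ c1 / Real.sqrt t * N ≤ |c s| ∧ |c s| ≤ C2 * N ∧ 0 ≤ a s) →
    c2 / Real.sqrt t * |c y| ≤ a y

/-- LG-DN: the whole downward swing. -/
def S_DN : Prop := ∀ (x y Φ : ℝ) (lam Lam : ℝ → ℝ), ContDiff ℝ (⊤ : ℕ∞) lam →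
  (∀ s, HasDerivAt Lam (lam s) s) → x < y → (∀ s ∈ Icc x y, lam s ≤ 0) → lam y = 0 →
  (∀ s ∈ Ioc x y, Lam s < Lam x) → 0 < Φ → Φ < Real.pi / 2 →
  (∀ s, x ≤ s → s + Φ ≤ y → Lam (s + Φ) < Lam s) →
  ∀ C g G : ℝ, 1 ≤ C → 0 < g → 0 < G → G < Real.pi →
  ∃ t1 c1 C2 : ℝ, 1 ≤ t1 ∧ 0 < c1 ∧ 1 ≤ C2 ∧ ∀ t, t1 ≤ t → ∀ k c a th, ∀ N θ : ℝ, 0 < N →
    Sys t C N lam k c a th x y → g / Real.sqrt t ≤ θ → θ ≤ Real.pi - G →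
    c x = - N * Real.sin θ → a x = - N * Real.cos θ →
    (∀ s ∈ Icc x y, c s < 0 ∧ |c s| ≤ C2 * N) ∧ c1 / Real.sqrt t * N ≤ |c y| ∧
      c1 / Real.sqrt t * |c y| ≤ a y ∧ a y ≤ C2 * |c y|

/-- LG-UP: the second upward swing. -/
def S_UP : Prop := ∀ (x y : ℝ) (lam Lam : ℝ → ℝ), Continuous lam →
  (∀ s, HasDerivAt Lam (lam s) s) → x < y → (∀ s ∈ Icc x y, 0 ≤ lam s) → Lam x < Lam y →
  ∀ C c1 : ℝ, 1 ≤ C → 0 < c1 → ∃ t1 : ℝ, 1 ≤ t1 ∧ ∀ t, t1 ≤ t → ∀ k c a th, ∀ N : ℝ,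
    t ^ 2 ≤ N → Sys t C N lam k c a th x y → c1 / t * N ≤ a x → - N ≤ c x →
    ∃ s ∈ Icc x y, 1 < c s

/-- LG-LB (Lemma B): a weakly monotone triple. -/
def S_LB : Prop := ∀ (h al b a2 om : ℝ) (lam Lam : ℝ → ℝ), ContDiff ℝ (⊤ : ℕ∞) lam →
  (∀ s, HasDerivAt Lam (lam s) s) → 0 < h → Trip Lam h 0 al b a2 om →
  ∃ s0, al ≤ s0 ∧ s0 < b ∧ ∀ C : ℝ, 1 ≤ C → ∃ t1 : ℝ, 1 ≤ t1 ∧ ∀ t, t1 ≤ t →
    ∀ k c a th, Pert t C lam k c a th s0 om → ∃ s ∈ Icc s0 om, 1 < c s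

/-! ## Selection of the scale -/

/-- An alternating sequence of `n` swings of size at least `h` in `[x, y]`, the first one upward. -/
def Alt (L : ℝ → ℝ) (x y h : ℝ) (n : ℕ) : Prop :=
  ∃ p : ℕ → ℝ, (∀ i < n, p i < p (i + 1)) ∧ (∀ i ≤ n, p i ∈ Icc x y) ∧
    ∀ i < n, (Even i → L (p i) + h ≤ L (p (i + 1))) ∧ (Odd i → L (p (i + 1)) + h ≤ L (p i))

/-- LG-EXTR: extremal choice of the points of a triple. -/
def S_EXTR : Prop := ∀ (L : ℝ → ℝ) (h p q r u : ℝ), Continuous L → 0 < h → p < q → q < r →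
  r < u → L p + h ≤ L q → L r + h ≤ L q → L r + h ≤ L u →
  ∃ al b a2 om, p ≤ al ∧ al < b ∧ b < a2 ∧ a2 < om ∧ om ≤ u ∧ L al ≤ L p ∧ L u ≤ L om ∧
    L al + h ≤ L b ∧ L a2 + h ≤ L b ∧ L a2 + h ≤ L om ∧
    (∀ s ∈ Icc al b, L al ≤ L s ∧ L s ≤ L b) ∧ (∀ s ∈ Icc b a2, L a2 ≤ L s ∧ L s ≤ L b) ∧
    (∀ s ∈ Icc a2 om, L a2 ≤ L s ∧ L s ≤ L om)

/-- LG-BLK: if there is no clean short triple then there are many more swings of size `d`. -/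
def S_BLK : Prop := ∀ (L : ℝ → ℝ) (x y h d : ℝ) (n : ℕ), Continuous L → x < y → 0 < h → 0 < d →
  d ≤ h → 64 ≤ n → Alt L x y h n →
  (∀ al b a2 om, x ≤ al → om ≤ y → om - al ≤ 8 * (y - x) / n → ¬ Trip L h d al b a2 om) →
  Alt L x y d (n + n / 8)

/-- LG-ROLLE: a smooth function has few swings of size `h`. -/
def S_ROLLE : Prop := ∀ (L : ℝ → ℝ) (x y : ℝ), ContDiff ℝ (⊤ : ℕ∞) L → x < y → ∀ k : ℕ,
  ∃ C : ℝ, 0 < C ∧ ∀ (h : ℝ) (n : ℕ), 0 < h → 1 ≤ n → Alt L x y h n → h * (n : ℝ) ^ k ≤ C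

/-- LG-ITER: the iteration of scales is impossible. -/
def S_ITER : Prop := ∀ P : ℝ → ℕ → Prop,
  (∀ k : ℕ, ∃ C : ℝ, 0 < C ∧ ∀ (h : ℝ) (n : ℕ), 0 < h → 1 ≤ n → P h n →
    h * (n : ℝ) ^ k ≤ C) →
  (∀ m : ℕ, ∀ ε : ℝ, 0 < ε → ∃ (h : ℝ) (n : ℕ), 0 < h ∧ h < ε ∧ m ≤ n ∧ P h n) →
  ¬ ∃ (ε : ℝ) (n0 : ℕ), 0 < ε ∧ ε ≤ 1 / 2 ∧ ∀ (h : ℝ) (n : ℕ), 0 < h → h < ε → n0 ≤ n → 2 ≤ n →
    Real.log n ≤ 3 * Real.log (1 / h) → P h n →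
    P (h * (Real.log n / (3 * Real.log (1 / h)))) (n + n / 8)

/-- LG-MONO: if the alternating sequences have bounded length then there is a weakly monotone
triple. -/
def S_MONO : Prop := ∀ (L : ℝ → ℝ) (p0 p1 p2 p3 : ℝ) (m : ℕ), Continuous L →
  UDU L p0 p1 p2 p3 → (∀ h > 0, ∀ n, Alt L p0 p3 h n → n ≤ m) →
  ∃ h al b a2 om, 0 < h ∧ p0 ≤ al ∧ om ≤ p3 ∧ Trip L h 0 al b a2 om

/-- LG-SEL: selection of a triple. -/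
def S_SEL : Prop := ∀ (L : ℝ → ℝ) (p0 p1 p2 p3 : ℝ), ContDiff ℝ (⊤ : ℕ∞) L →
  UDU L p0 p1 p2 p3 →
  (∃ h al b a2 om, 0 < h ∧ p0 ≤ al ∧ om ≤ p3 ∧ Trip L h 0 al b a2 om) ∨
  ∀ ε : ℝ, 0 < ε → ∃ h η al b a2 om : ℝ, 0 < h ∧ h < ε ∧ 0 ≤ η ∧ p0 ≤ al ∧ om ≤ p3 ∧
    Trip L h (η * h) al b a2 om ∧
    Real.exp (3 * η * Real.log (1 / h)) * (om - al) ^ 2 ≤ ε

end Pool.Agent.W550.LG
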