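import Pool.Agent.W550.LG.StmV

open Set

namespace Pool.Agent.W550.LG

theorem s_extr : S_EXTR := by
  intro L h p q r u hL hh hpq hqr hru h1 h2 h3
  obtain ⟨b0, hb0, hb0m⟩ := isCompact_Icc.exists_isMaxOn (s := Icc p r) ⟨q, hpq.le, hqr.le⟩
    hL.continuousOn
  have mb0 : ∀ s, p ≤ s → s ≤ r → L s ≤ L b0 := fun s h1 h2 => hb0m ⟨h1, h2⟩
  have e1 : L q ≤ L b0 := mb0 q hpq.le hqr.le
  have hb0r : b0 ≠ r := by rintro rfl; linarith
  have hb0r' : b0 < r := lt_of_le_of_ne hb0.2 hb0r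
  obtain ⟨a2, ha2, ha2m⟩ := isCompact_Icc.exists_isMinOn (s := Icc b0 u) ⟨u, by linarith, le_rfl⟩
    hL.continuousOn
  have ma2 : ∀ s, b0 ≤ s → s ≤ u → L a2 ≤ L s := fun s h1 h2 => ha2m ⟨h1, h2⟩
  have e2 : L a2 ≤ L r := ma2 r hb0r'.le hru.le
  have ha2b : a2 ≠ b0 := by rintro rfl; linarith
  have ha2u : a2 ≠ u := by rintro rfl; linarith
  have ha2b' : b0 < a2 := lt_of_le_of_ne ha2.1 (Ne.symm ha2b)
  have ha2u' : a2 < u := lt_of_le_of_ne ha2.2 ha2u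
  obtain ⟨b, hb, hbm⟩ := isCompact_Icc.exists_isMaxOn (s := Icc b0 a2) ⟨b0, le_rfl, ha2b'.le⟩
    hL.continuousOn
  have mb1 : ∀ s, b0 ≤ s → s ≤ a2 → L s ≤ L b := fun s h1 h2 => hbm ⟨h1, h2⟩
  have e3 : L b0 ≤ L b := mb1 b0 le_rfl ha2b'.le
  have mb : ∀ s, p ≤ s → s ≤ a2 → L s ≤ L b := by
    intro s hs1 hs2
    rcases le_total b0 s with h | h
    · exact mb1 s h hs2
    · exact (mb0 s hs1 (by linarith)).trans e3
  have hba2 : b ≠ a2 := by rintro rfl; linarith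
  have hba2' : b < a2 := lt_of_le_of_ne hb.2 hba2
  have hpb : p < b := by
    have : p ≠ b := by rintro rfl; linarith
    exact lt_of_le_of_ne (hb0.1.trans hb.1) this
  obtain ⟨al, hal, halm⟩ := isCompact_Icc.exists_isMinOn (s := Icc p b) ⟨p, le_rfl, hpb.le⟩
    hL.continuousOn
  have mal : ∀ s, p ≤ s → s ≤ b → L al ≤ L s := fun s h1 h2 => halm ⟨h1, h2⟩
  have e4 : L al ≤ L p := mal p le_rfl hpb.le
  have halb : al ≠ b := by rintro rfl; linarith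
  have halb' : al < b := lt_of_le_of_ne hal.2 halb
  obtain ⟨om, hom, homm⟩ := isCompact_Icc.exists_isMaxOn (s := Icc a2 u) ⟨u, ha2u'.le, le_rfl⟩
    hL.continuousOn
  have mom : ∀ s, a2 ≤ s → s ≤ u → L s ≤ L om := fun s h1 h2 => homm ⟨h1, h2⟩
  have e5 : L u ≤ L om := mom u ha2u'.le le_rfl
  have hao : a2 ≠ om := by rintro rfl; linarith
  have hao' : a2 < om := lt_of_le_of_ne hom.1 hao
  refine ⟨al, b, a2, om, hal.1, halb', hba2', hao', hom.2, e4, e5, by linarith, by linarith,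
    by linarith, fun s hs => ⟨?_, ?_⟩, fun s hs => ⟨?_, ?_⟩, fun s hs => ⟨?_, ?_⟩⟩
  · exact mal s (hal.1.trans hs.1) hs.2
  · exact mb s (hal.1.trans hs.1) (hs.2.trans hba2'.le)
  · exact ma2 s (hb.1.trans hs.1) (hs.2.trans ha2u'.le)
  · exact mb s (hpb.le.trans hs.1) hs.2
  · exact ma2 s (ha2b'.le.trans hs.1) (hs.2.trans hom.2)
  · exact mom s hs.1 (hs.2.trans hom.2)

end Pool.Agent.W550.LG
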