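import Pool.Agent.W550.LG.StmV

open Set

namespace Pool.Agent.W550.LG

lemma scale (K M : ℝ) (hK : 1 ≤ K) : ∃ ε : ℝ, 0 < ε ∧ ∀ h, 0 < h → h < ε →
    M ≤ 3 * Real.log (1 / h) / h ∧
    400 * (1 + 3 * Real.log (1 / h) / h * K) ^ 2 ≤ Real.exp (3 * Real.log (1 / h) / h * h) := by
  set X : ℝ := max (max M 3) ((67600 * K ^ 2) ^ 2) with hX
  have hX3 : 3 ≤ X := le_trans (le_max_right _ _) (le_max_left _ _)
  have hXM : M ≤ X := le_trans (le_max_left _ _) (le_max_left _ _)
  have hXK : (67600 * K ^ 2) ^ 2 ≤ X := le_max_right _ _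
  refine ⟨1 / X, by positivity, fun h hh hhX => ?_⟩
  set x : ℝ := 1 / h with hx
  have hxX : X < x := by
    rw [hx, lt_div_iff₀ hh]
    rw [lt_div_iff₀ (by linarith)] at hhX
    linarith [mul_comm X h]
  have hx0 : 0 < x := by linarith
  have hhx : h = 1 / x := by rw [hx]; field_simp
  have hlog1 : 1 ≤ Real.log x := by
    rw [Real.le_log_iff_exp_le hx0]
    have := Real.exp_one_lt_d9
    linarith
  have e1 : 3 * Real.log x / h = 3 * x * Real.log x := by
    rw [hhx]; field_simp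
  have e2 : Real.exp (3 * Real.log x / h * h) = x ^ 3 := by
    rw [div_mul_cancel₀ _ hh.ne']
    rw [show 3 * Real.log x = Real.log x * (3 : ℕ) by push_cast; ring, Real.exp_mul,
      Real.exp_log hx0, Real.rpow_natCast]
  rw [e2, e1]
  refine ⟨by nlinarith, ?_⟩
  set y : ℝ := Real.sqrt (Real.sqrt x) with hy
  have hy0 : 0 < y := Real.sqrt_pos.2 (Real.sqrt_pos.2 hx0)
  have hy2 : y ^ 2 = Real.sqrt x := Real.sq_sqrt (Real.sqrt_nonneg _)
  have hy4 : y ^ 4 = x := by
    rw [show y ^ 4 = (y ^ 2) ^ 2 by ring, hy2, Real.sq_sqrt hx0.le]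
  have hlogy : Real.log x ≤ 4 * y := by
    rw [← hy4, Real.log_pow]
    have := Real.log_le_sub_one_of_pos hy0
    push_cast
    linarith
  have hyK : 67600 * K ^ 2 ≤ y ^ 2 := by
    rw [hy2]
    apply Real.le_sqrt_of_sq_le
    linarith
  have hy1 : 1 ≤ y := by
    by_contra hcon
    push Not at hcon
    have : y ^ 2 < 1 := by nlinarith
    nlinarith
  have hlog0 : 0 ≤ Real.log x := by linarith
  have h1 : 1 + 3 * x * Real.log x * K ≤ 13 * K * y ^ 5 := by
    have h2 : 3 * x * Real.log x * K ≤ 3 * x * (4 * y) * K := by gcongr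
    have h3 : 3 * x * (4 * y) * K = 12 * K * y ^ 5 := by rw [← hy4]; ring
    have h4 : 1 ≤ K * y ^ 5 := by
      have : 1 ≤ y ^ 5 := one_le_pow₀ hy1
      nlinarith
    linarith
  have h0 : 0 ≤ 1 + 3 * x * Real.log x * K := by positivity
  calc 400 * (1 + 3 * x * Real.log x * K) ^ 2 ≤ 400 * (13 * K * y ^ 5) ^ 2 := by gcongr
    _ = (67600 * K ^ 2) * y ^ 10 := by ring
    _ ≤ y ^ 2 * y ^ 10 := by gcongr
    _ = x ^ 3 := by rw [← hy4]; ring

theorem s_fin : S_RED → S_LA → S_LB → S_SEL → PartVg := by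
  intro hRED hLA hLB hSEL q p0 p1 p2 p3 lam Lam beta hlam hbeta hLam hU
  have hlt : p0 < p3 := by obtain ⟨h1, h2, h3, _⟩ := hU; linarith
  obtain ⟨C, hC1, hC⟩ := hRED q p0 p3 lam beta hlam hbeta hlt
  have hLamS : ContDiff ℝ (⊤ : ℕ∞) Lam := by
    rw [contDiff_infty_iff_deriv]
    refine ⟨fun s => (hLam s).differentiableAt, ?_⟩
    have : deriv Lam = lam := funext fun s => (hLam s).deriv
    rw [this]; exact hlam
  rcases hSEL Lam p0 p1 p2 p3 hLamS hU with ⟨h, al, b, a2, om, hh, ha, ho, hT⟩ | hS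
  · obtain ⟨s0, h1, h2, h3⟩ := hLB h al b a2 om lam Lam hlam hLam hh hT
    obtain ⟨t1, ht1, h4⟩ := h3 C hC1
    have hlt1 := hT.lt1
    have hlt2 := hT.lt2
    have hlt3 := hT.lt3
    refine ⟨max t1 C, ?_, s0, om, by linarith, by linarith, ho, fun c a psi hs => ?_⟩
    · have := le_max_right t1 C
      show 0 < max t1 C
      linarith
    · obtain ⟨k, th, hp⟩ := hC (max t1 C) (le_max_right _ _) s0 om (by linarith) (by linarith) ho
        c a psi hs
      exact h4 _ (le_max_left _ _) k c a th hp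
  · obtain ⟨K0, hK0⟩ := isCompact_Icc.exists_bound_of_continuousOn
      (s := Icc p0 p3) hlam.continuous.continuousOn
    set K : ℝ := max 1 K0 with hKdef
    have hK1 : 1 ≤ K := le_max_left _ _
    have hK : ∀ s ∈ Icc p0 p3, |lam s| ≤ K := fun s hs =>
      le_trans (by simpa using hK0 s hs) (le_max_right _ _)
    obtain ⟨t1, ht1, h4⟩ := hLA p0 p3 K C lam Lam hlam.continuous hLam hlt hK1 hK hC1
    obtain ⟨ε, hε, hε2⟩ := scale K (max t1 C) hK1
    obtain ⟨h, η, al, b, a2, om, hh, hhε, hη, ha, ho, hT, hexp⟩ :=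
      hS (min ε (1 / 64)) (by positivity)
    obtain ⟨h5, h6⟩ := hε2 h hh (lt_of_lt_of_le hhε (min_le_left _ _))
    set t : ℝ := 3 * Real.log (1 / h) / h with ht
    have hlt1 := hT.lt1
    have hlt2 := hT.lt2
    have hlt3 := hT.lt3
    have htC : C ≤ t := le_trans (le_max_right _ _) h5
    refine ⟨t, by show 0 < t; linarith, al, om, ha, by linarith, ho, fun c a psi hs => ?_⟩
    obtain ⟨k, th, hp⟩ := hC t htC al om ha (by linarith) ho c a psi hs
    refine ⟨om, ⟨by linarith, le_rfl⟩, ?_⟩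
    refine h4 t (le_trans (le_max_left _ _) h5) h (η * h) al b a2 om ha ho hh (by positivity) hT
      ?_ h6 k c a th hp
    have e1 : t * (η * h) = 3 * η * Real.log (1 / h) := by
      rw [ht]; field_simp
    rw [e1]
    exact le_trans hexp (min_le_right _ _)

end Pool.Agent.W550.LG
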