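import Pool.Agent.W550.LG.StmV

open Set

namespace Pool.Agent.W550.LG

/-- Five swings from the failure of `Trip`. -/
lemma ins {L : ℝ → ℝ} {h d al b a2 om : ℝ} (hd : 0 ≤ d) (hdh : d < h) (h1 : al < b) (h2 : b < a2)
    (h3 : a2 < om) (u1 : L al + h ≤ L b) (dn : L a2 + h ≤ L b) (u2 : L a2 + h ≤ L om)
    (e1 : ∀ s ∈ Icc al b, L al ≤ L s ∧ L s ≤ L b) (e2 : ∀ s ∈ Icc b a2, L a2 ≤ L s ∧ L s ≤ L b)
    (e3 : ∀ s ∈ Icc a2 om, L a2 ≤ L s ∧ L s ≤ L om) (hT : ¬ Trip L h d al b a2 om) :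
    ∃ x1 x2 x3 x4, al < x1 ∧ x1 < x2 ∧ x2 < x3 ∧ x3 < x4 ∧ x4 < om ∧ L al + d < L x1 ∧
      L x2 + d < L x1 ∧ L x2 + d < L x3 ∧ L x4 + d < L x3 ∧ L x4 + d < L om := by
  by_cases n1 : ∀ r s, al ≤ r → r ≤ s → s ≤ b → L r - d ≤ L s
  · by_cases n2 : ∀ r s, b ≤ r → r ≤ s → s ≤ a2 → L s ≤ L r + d
    · by_cases n3 : ∀ r s, a2 ≤ r → r ≤ s → s ≤ om → L r - d ≤ L s
      · exact absurd ⟨h1, h2, h3, u1, dn, u2, n1, n2, n3⟩ hT
      · push Not at n3
        obtain ⟨r, s, hr, hrs, hs, hlt⟩ := n3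
        have f1 := e3 r ⟨hr, hrs.trans hs⟩
        have f2 := e3 s ⟨hr.trans hrs, hs⟩
        have hr' : a2 ≠ r := by rintro rfl; linarith
        have hrs' : r ≠ s := by rintro rfl; linarith
        have hs' : s ≠ om := by rintro rfl; linarith
        exact ⟨b, a2, r, s, h1, h2, lt_of_le_of_ne hr hr', lt_of_le_of_ne hrs hrs',
          lt_of_le_of_ne hs hs', by linarith, by linarith, by linarith, by linarith, by linarith⟩
    · push Not at n2
      obtain ⟨r, s, hr, hrs, hs, hlt⟩ := n2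
      have f1 := e2 r ⟨hr, hrs.trans hs⟩
      have f2 := e2 s ⟨hr.trans hrs, hs⟩
      have hr' : b ≠ r := by rintro rfl; linarith
      have hrs' : r ≠ s := by rintro rfl; linarith
      have hs' : s ≠ a2 := by rintro rfl; linarith
      exact ⟨b, r, s, a2, h1, lt_of_le_of_ne hr hr', lt_of_le_of_ne hrs hrs',
        lt_of_le_of_ne hs hs', h3, by linarith, by linarith, by linarith, by linarith,
        by linarith⟩
  · push Not at n1
    obtain ⟨r, s, hr, hrs, hs, hlt⟩ := n1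
    have f1 := e1 r ⟨hr, hrs.trans hs⟩
    have f2 := e1 s ⟨hr.trans hrs, hs⟩
    have hr' : al ≠ r := by rintro rfl; linarith
    have hrs' : r ≠ s := by rintro rfl; linarith
    have hs' : s ≠ b := by rintro rfl; linarith
    exact ⟨r, s, b, a2, lt_of_le_of_ne hr hr', lt_of_le_of_ne hrs hrs',
      lt_of_le_of_ne hs hs', h2, h3, by linarith, by linarith, by linarith, by linarith,
      by linarith⟩

/-- The sequence with the first three swings replaced by five swings. -/
def repl (p : ℕ → ℝ) (al x1 x2 x3 x4 om : ℝ) : ℕ → ℝ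
  | 0 => al
  | 1 => x1
  | 2 => x2
  | 3 => x3
  | 4 => x4
  | 5 => om
  | (j + 6) => p (j + 4)

theorem s_mono : S_EXTR → S_MONO := by
  intro hE L p0 p1 p2 p3 m hL hU hm
  obtain ⟨l1, l2, l3, v1, v2, v3⟩ := hU
  -- there is an alternating sequence of length 3
  have hex : ∃ n, ∃ h > 0, Alt L p0 p3 h n ∧ 3 ≤ n := by
    refine ⟨3, min (L p1 - L p0) (min (L p1 - L p2) (L p3 - L p2)), ?_, ?_, le_rfl⟩
    · show 0 < _
      refine lt_min (by linarith) (lt_min (by linarith) (by linarith))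
    · set h := min (L p1 - L p0) (min (L p1 - L p2) (L p3 - L p2)) with hh
      have b1 : h ≤ L p1 - L p0 := min_le_left _ _
      have b2 : h ≤ L p1 - L p2 := (min_le_right _ _).trans (min_le_left _ _)
      have b3 : h ≤ L p3 - L p2 := (min_le_right _ _).trans (min_le_right _ _)
      refine ⟨fun i => if i = 0 then p0 else if i = 1 then p1 else if i = 2 then p2 else p3,
        fun i hi => ?_, fun i hi => ?_, fun i hi => ?_⟩
      · interval_cases i <;> simp <;> assumption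
      · interval_cases i <;> simp <;> first | linarith | (constructor <;> linarith)
      · interval_cases i <;> simp <;> linarith
  -- a maximal one
  have hbdd : ∃ N, (∃ h > 0, Alt L p0 p3 h N ∧ 3 ≤ N) ∧
      ∀ n, (∃ h > 0, Alt L p0 p3 h n ∧ 3 ≤ n) → n ≤ N := by
    classical
    obtain ⟨n, hn⟩ := hex
    have hbd : ∀ n, (∃ h > 0, Alt L p0 p3 h n ∧ 3 ≤ n) → n ≤ m := by
      rintro n ⟨h, hh, hA, _⟩
      exact hm h hh n hA
    have := Nat.findGreatest_spec (P := fun n => ∃ h > 0, Alt L p0 p3 h n ∧ 3 ≤ n) (hbd n hn) hn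
    refine ⟨_, this, fun k hk => Nat.le_findGreatest (hbd k hk) hk⟩
  obtain ⟨N, ⟨h, hh, ⟨p, hp1, hp2, hp3⟩, hN3⟩, hmax⟩ := hbdd
  have q0 := (hp3 0 (by omega)).1 (by decide)
  have q1 := (hp3 1 (by omega)).2 (by decide)
  have q2 := (hp3 2 (by omega)).1 (by decide)
  obtain ⟨al, b, a2, om, o1, o2, o3, o4, o5, w1, w2, u1, dn, u2, e1, e2, e3⟩ :=
    hE L h (p 0) (p 1) (p 2) (p 3) hL hh (hp1 0 (by omega)) (hp1 1 (by omega)) (hp1 2 (by omega))
      q0 q1 q2
  have hal : p0 ≤ al := (hp2 0 (by omega)).1.trans o1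
  have hom : om ≤ p3 := o5.trans (hp2 3 hN3).2
  refine ⟨h, al, b, a2, om, hh, hal, hom, ?_⟩
  by_contra hT
  obtain ⟨x1, x2, x3, x4, y1, y2, y3, y4, y5, z1, z2, z3, z4, z5⟩ :=
    ins le_rfl hh o2 o3 o4 u1 dn u2 e1 e2 e3 hT
  simp only [add_zero] at z1 z2 z3 z4 z5
  set h' := min h (min (min (L x1 - L al) (L x1 - L x2)) (min (L x3 - L x2)
    (min (L x3 - L x4) (L om - L x4)))) with hh'
  have c0 : h' ≤ h := min_le_left _ _
  have c1 : h' ≤ L x1 - L al := (min_le_right _ _).trans ((min_le_left _ _).trans (min_le_left _ _))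
  have c2 : h' ≤ L x1 - L x2 :=
    (min_le_right _ _).trans ((min_le_left _ _).trans (min_le_right _ _))
  have c3 : h' ≤ L x3 - L x2 :=
    (min_le_right _ _).trans ((min_le_right _ _).trans (min_le_left _ _))
  have c4 : h' ≤ L x3 - L x4 :=
    (min_le_right _ _).trans ((min_le_right _ _).trans ((min_le_right _ _).trans (min_le_left _ _)))
  have c5 : h' ≤ L om - L x4 :=
    (min_le_right _ _).trans
      ((min_le_right _ _).trans ((min_le_right _ _).trans (min_le_right _ _)))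
  have hpos : 0 < h' := by
    refine lt_min hh (lt_min (lt_min ?_ ?_) (lt_min ?_ (lt_min ?_ ?_))) <;> linarith
  have hcontra := hmax (N + 2) ⟨h', hpos, ⟨repl p al x1 x2 x3 x4 om, ?_, ?_, ?_⟩, by omega⟩
  · omega
  · intro i hi
    match i, hi with
    | 0, _ => exact y1
    | 1, _ => exact y2
    | 2, _ => exact y3
    | 3, _ => exact y4
    | 4, _ => exact y5
    | 5, hi => exact lt_of_le_of_lt o5 (hp1 3 (by omega))
    | (j + 6), hi => exact hp1 (j + 4) (by omega)
  · intro i hi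
    match i, hi with
    | 0, _ => exact ⟨hal, by show al ≤ p3; linarith⟩
    | 1, _ => exact ⟨by show p0 ≤ x1; linarith, by show x1 ≤ p3; linarith⟩
    | 2, _ => exact ⟨by show p0 ≤ x2; linarith, by show x2 ≤ p3; linarith⟩
    | 3, _ => exact ⟨by show p0 ≤ x3; linarith, by show x3 ≤ p3; linarith⟩
    | 4, _ => exact ⟨by show p0 ≤ x4; linarith, by show x4 ≤ p3; linarith⟩
    | 5, _ => exact ⟨by show p0 ≤ om; linarith, hom⟩
    | (j + 6), hi => exact hp2 (j + 4) (by omega)
  · intro i hi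
    match i, hi with
    | 0, _ => exact ⟨fun _ => by show L al + h' ≤ L x1; linarith, fun h => absurd h (by decide)⟩
    | 1, _ => exact ⟨fun h => absurd h (by decide), fun _ => by show L x2 + h' ≤ L x1; linarith⟩
    | 2, _ => exact ⟨fun _ => by show L x2 + h' ≤ L x3; linarith, fun h => absurd h (by decide)⟩
    | 3, _ => exact ⟨fun h => absurd h (by decide), fun _ => by show L x4 + h' ≤ L x3; linarith⟩
    | 4, _ => exact ⟨fun _ => by show L x4 + h' ≤ L om; linarith, fun h => absurd h (by decide)⟩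
    | 5, hi =>
      refine ⟨fun h => absurd h (by decide), fun _ => ?_⟩
      show L (p 4) + h' ≤ L om
      have := (hp3 3 (by omega)).2 (by decide)
      simp only [Nat.reduceAdd] at this
      linarith
    | (j + 6), hi =>
      show (Even (j + 6) → L (p (j + 4)) + h' ≤ L (p (j + 4 + 1))) ∧
        (Odd (j + 6) → L (p (j + 4 + 1)) + h' ≤ L (p (j + 4)))
      have := hp3 (j + 4) (by omega)
      refine ⟨fun he => ?_, fun ho => ?_⟩
      · have := this.1 (by rw [Nat.even_iff] at he ⊢; omega); linarith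
      · have := this.2 (by rw [Nat.odd_iff] at ho ⊢; omega); linarith

end Pool.Agent.W550.LG
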