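import Pool.Agent.W550.LG.StmV

open Set

namespace Pool.Agent.W550.LG

/-- A function with derivative zero on `[x, y]` is constant there. -/
lemma const_of_deriv_zero {f : ℝ → ℝ} {x y : ℝ} (h : ∀ s ∈ Icc x y, HasDerivAt f 0 s) :
    ∀ s ∈ Icc x y, f s = f x := by
  intro s hs
  have h1 := constant_of_has_deriv_right_zero (f := f) (a := x) (b := y)
    (fun s hs => (h s hs).continuousAt.continuousWithinAt)
    (fun s hs => (h s ⟨hs.1, hs.2.le⟩).hasDerivWithinAt)
  exact h1 s hs

theorem s_rot : S_ROT := by
  intro t C N x y lam k c a th ht hxy hlam hS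
  have hccont : ∀ s ∈ Icc x y, ContinuousOn c (Icc x s) := fun s hs r hr =>
    (hS.dc r ⟨hr.1, hr.2.trans hs.2⟩).continuousAt.continuousWithinAt
  have hth : ∀ s ∈ Icc x y, th s = 0 := by
    intro s hs
    obtain ⟨M, hM⟩ := isCompact_Icc.exists_bound_of_continuousOn (hccont s hs)
    have h1 := hS.th_le s hs (max N M) (le_max_left _ _)
      (fun r hr => (by simpa using hM r hr : |c r| ≤ M).trans (le_max_right _ _))
    rw [hlam s hs, abs_zero, mul_zero, zero_mul] at h1
    exact abs_nonpos_iff.1 h1
  have hda : ∀ s ∈ Icc x y, HasDerivAt a (- c s) s := by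
    intro s hs
    have h1 := hS.da s hs
    rw [hlam s hs, hth s hs] at h1
    simpa using h1
  have hcos : ∀ s, HasDerivAt (fun s => Real.cos (s - x)) (- Real.sin (s - x)) s := by
    intro s
    simpa using ((hasDerivAt_id s).sub_const x).cos
  have hsin : ∀ s, HasDerivAt (fun s => Real.sin (s - x)) (Real.cos (s - x)) s := by
    intro s
    simpa using ((hasDerivAt_id s).sub_const x).sin
  have h1 : ∀ s ∈ Icc x y, c s * Real.cos (s - x) - a s * Real.sin (s - x) = c x := by
    intro s hs
    have := const_of_deriv_zero (f := fun s => c s * Real.cos (s - x) - a s * Real.sin (s - x))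
      (x := x) (y := y) (fun s hs => by
        have h2 := ((hS.dc s hs).mul (hcos s)).sub ((hda s hs).mul (hsin s))
        have e : a s * Real.cos (s - x) + c s * - Real.sin (s - x) -
          (- c s * Real.sin (s - x) + a s * Real.cos (s - x)) = 0 := by ring
        rw [e] at h2
        exact h2) s hs
    simpa using this
  have h2 : ∀ s ∈ Icc x y, c s * Real.sin (s - x) + a s * Real.cos (s - x) = a x := by
    intro s hs
    have := const_of_deriv_zero (f := fun s => c s * Real.sin (s - x) + a s * Real.cos (s - x))
      (x := x) (y := y) (fun s hs => by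
        have h2 := ((hS.dc s hs).mul (hsin s)).add ((hda s hs).mul (hcos s))
        have e : a s * Real.sin (s - x) + c s * Real.cos (s - x) +
          (- c s * Real.cos (s - x) + a s * - Real.sin (s - x)) = 0 := by ring
        rw [e] at h2
        exact h2) s hs
    simpa using this
  intro s hs
  have e1 := h1 s hs
  have e2 := h2 s hs
  have e3 := Real.sin_sq_add_cos_sq (s - x)
  constructor
  · rw [← e1, ← e2]; linear_combination (- c s) * e3
  · rw [← e1, ← e2]; linear_combination (- a s) * e3

end Pool.Agent.W550.LG
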