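import Pool.Agent.W550.LG.StmV

open Set

namespace Pool.Agent.W550.LG

lemma Alt.mono {L : ℝ → ℝ} {x y h h' : ℝ} {n : ℕ} (hh : h' ≤ h) (H : Alt L x y h n) :
    Alt L x y h' n := by
  obtain ⟨p, h1, h2, h3⟩ := H
  refine ⟨p, h1, h2, fun i hi => ⟨fun he => ?_, fun ho => ?_⟩⟩
  · have := (h3 i hi).1 he; linarith
  · have := (h3 i hi).2 ho; linarith

theorem s_sel : S_BLK → S_ROLLE → S_ITER → S_MONO → S_SEL := by
  intro hB hR hI hM L p0 p1 p2 p3 hL hU
  have hlt : p0 < p3 := by obtain ⟨h1, h2, h3, _⟩ := hU; linarith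
  by_cases hb : ∃ m : ℕ, ∀ h > 0, ∀ n, Alt L p0 p3 h n → n ≤ m
  · left
    obtain ⟨m, hm⟩ := hb
    exact hM L p0 p1 p2 p3 m hL.continuous hU hm
  right
  push Not at hb
  intro ε hε
  have h2 : ∀ m : ℕ, ∀ ε : ℝ, 0 < ε → ∃ (h : ℝ) (n : ℕ), 0 < h ∧ h < ε ∧ m ≤ n ∧
      Alt L p0 p3 h n := by
    intro m ε hε
    obtain ⟨h, hh, n, hn, hmn⟩ := hb m
    refine ⟨min h (ε / 2), n, lt_min hh (by linarith), ?_, hmn.le, hn.mono (min_le_left _ _)⟩
    exact lt_of_le_of_lt (min_le_right _ _) (by linarith)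
  have h3 := hI (fun h n => Alt L p0 p3 h n) (hR L p0 p3 hL hlt) h2
  obtain ⟨n0, hn0⟩ := exists_nat_ge (max 64 (64 * (p3 - p0) ^ 2 / ε))
  have h64 : (64 : ℝ) ≤ n0 := le_trans (le_max_left _ _) hn0
  have hbig : 64 * (p3 - p0) ^ 2 / ε ≤ n0 := le_trans (le_max_right _ _) hn0
  push Not at h3
  obtain ⟨h, n, hh0, hhε, hn0n, hn2, hlog, hP, hnP⟩ :=
    h3 (min ε (1 / 2)) n0 (by positivity) (min_le_right _ _)
  have hn0n' : (n0 : ℝ) ≤ n := by exact_mod_cast hn0n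
  have hhε' : h < ε := lt_of_lt_of_le hhε (min_le_left _ _)
  have hh1 : h < 1 / 2 := lt_of_lt_of_le hhε (min_le_right _ _)
  have hn64 : (64 : ℝ) ≤ n := le_trans h64 hn0n'
  have hnpos : (0 : ℝ) < n := by linarith
  have hX : 0 < Real.log (1 / h) := by
    apply Real.log_pos
    rw [lt_div_iff₀ hh0]; linarith
  have hlogn : 0 < Real.log n := Real.log_pos (by linarith)
  set η : ℝ := Real.log n / (3 * Real.log (1 / h)) with hη
  have hη0 : 0 < η := by positivity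
  have hη1 : η ≤ 1 := by
    rw [hη, div_le_one (by positivity)]; exact hlog
  have hd : h * η ≤ h := by nlinarith
  have key : ¬ ∀ al b a2 om, p0 ≤ al → om ≤ p3 → om - al ≤ 8 * (p3 - p0) / n →
      ¬ Trip L h (h * η) al b a2 om := by
    intro hcon
    apply hnP
    exact hB L p0 p3 h (h * η) n hL.continuous hlt hh0 (by positivity) hd
      (by exact_mod_cast hn64) hP hcon
  push Not at key
  obtain ⟨al, b, a2, om, ha, ho, hlen, hT⟩ := key
  refine ⟨h, η, al, b, a2, om, hh0, hhε', hη0.le, ha, ho, by rwa [mul_comm η h], ?_⟩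
  have e1 : 3 * η * Real.log (1 / h) = Real.log n := by
    rw [hη]; field_simp
  rw [e1, Real.exp_log hnpos]
  have hpos : 0 ≤ om - al := by
    have := hT.lt1; have := hT.lt2; have := hT.lt3; linarith
  calc (n : ℝ) * (om - al) ^ 2 ≤ n * (8 * (p3 - p0) / n) ^ 2 := by gcongr
    _ = 64 * (p3 - p0) ^ 2 / n := by field_simp; ring
    _ ≤ ε := by
      rw [div_le_iff₀ hnpos]
      rw [div_le_iff₀ hε] at hbig
      nlinarith

end Pool.Agent.W550.LG
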