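import Pool.Agent.W550.LG.StmV

open Set

namespace Pool.Agent.W550.LG

lemma monotoneOn_of_hasDerivAt {f f' : ℝ → ℝ} {x y : ℝ} (hc : ContinuousOn f (Icc x y))
    (hd : ∀ s ∈ Ioo x y, HasDerivAt f (f' s) s) (h0 : ∀ s ∈ Ioo x y, 0 ≤ f' s) :
    MonotoneOn f (Icc x y) := by
  refine monotoneOn_of_deriv_nonneg (convex_Icc x y) hc ?_ ?_
  · rw [interior_Icc]
    exact fun s hs => (hd s hs).differentiableAt.differentiableWithinAt
  · rw [interior_Icc]
    exact fun s hs => by rw [(hd s hs).deriv]; exact h0 s hs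

theorem s_up : S_UP := by
  intro x y lam Lam hlam hLam hxy hpos hLxy C c1 hC hc1
  have hLc : Continuous Lam := continuous_iff_continuousAt.2 fun s => (hLam s).continuousAt
  -- `Lam` is monotone on `[x, y]`
  have hmono : MonotoneOn Lam (Icc x y) :=
    monotoneOn_of_hasDerivAt hLc.continuousOn (fun s _ => hLam s)
      (fun s hs => hpos s ⟨hs.1.le, hs.2.le⟩)
  set ω : ℝ := (Lam y - Lam x) / 2 with hω
  have hω0 : 0 < ω := by rw [hω]; linarith
  obtain ⟨z, hz, hLz⟩ : ∃ z ∈ Ioo x y, Lam x + ω < Lam z := by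
    have h1 : ∀ᶠ z in nhdsWithin y (Iio y), Lam x + ω < Lam z := by
      have : Filter.Tendsto Lam (nhdsWithin y (Iio y)) (nhds (Lam y)) :=
        hLc.continuousAt.tendsto.mono_left nhdsWithin_le_nhds
      exact this.eventually (lt_mem_nhds (by rw [hω]; linarith))
    have h2 : ∀ᶠ z in nhdsWithin y (Iio y), z ∈ Ioo x y := Ioo_mem_nhdsLT hxy
    obtain ⟨z, hz1, hz2⟩ := (h2.and h1).exists
    exact ⟨z, hz1, hz2⟩
  have hyz : 0 < y - z := by linarith [hz.2]
  refine ⟨max 2 (max (8 * C / c1) (max ((2 * (y - x) + 1) / c1) (128 / (c1 * (y - z) * ω ^ 2)))),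
    le_trans (by norm_num) (le_max_left _ _), fun t ht k c a th N hN hS ha hc => ?_⟩
  have ht2 : 2 ≤ t := le_trans (le_max_left _ _) ht
  have htC : 8 * C / c1 ≤ t := le_trans ((le_max_left _ _).trans (le_max_right _ _)) ht
  have htl : (2 * (y - x) + 1) / c1 ≤ t :=
    le_trans ((le_max_left _ _).trans ((le_max_right _ _).trans (le_max_right _ _))) ht
  have htw : 128 / (c1 * (y - z) * ω ^ 2) ≤ t :=
    le_trans ((le_max_right _ _).trans ((le_max_right _ _).trans (le_max_right _ _))) ht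
  have ht0 : 0 < t := by linarith
  rw [div_le_iff₀ hc1] at htC htl
  rw [div_le_iff₀ (by positivity)] at htw
  have hN1 : 4 ≤ N := by nlinarith
  by_contra hcon
  push Not at hcon
  set A : ℝ := a x with hA
  have hA1 : c1 * t ≤ A := by
    have : c1 / t * t ^ 2 ≤ c1 / t * N := by gcongr
    have e : c1 / t * t ^ 2 = c1 * t := by field_simp
    linarith
  have hA2 : 2 * (y - x) + 1 ≤ A := by linarith [mul_comm t c1]
  have hNA : N ≤ t / c1 * A := by
    have : c1 / t * N ≤ A := ha
    rw [div_mul_eq_mul_div, div_le_iff₀ ht0] at this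
    rw [div_mul_eq_mul_div, le_div_iff₀ hc1]
    linarith [mul_comm N c1, mul_comm A t]
  have hcc : ContinuousOn c (Icc x y) := fun s hs => (hS.dc s hs).continuousAt.continuousWithinAt
  have hac : ContinuousOn a (Icc x y) := fun s hs => (hS.da s hs).continuousAt.continuousWithinAt
  -- differential inequality as long as `a ≥ A / 2`
  have hdiff : ∀ s ∈ Icc x y, (∀ r ∈ Ico x s, A / 2 ≤ a r) → A / 2 ≤ a s →
      t / 4 * lam s * a s - 1 ≤ t * (lam s * k s) * a s - c s + th s := by
    intro s hs hr has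
    have hA0 : 0 < A := by linarith
    have hcm : MonotoneOn c (Icc x s) := by
      refine monotoneOn_of_hasDerivAt (hcc.mono (Icc_subset_Icc le_rfl hs.2))
        (fun r hr => hS.dc r ⟨hr.1.le, hr.2.le.trans hs.2⟩) (fun r hr' => ?_)
      have := hr r ⟨hr'.1.le, hr'.2⟩
      linarith
    have hth := hS.th_le s hs N le_rfl (fun r hr => by
      rw [abs_le]
      constructor
      · have := hcm ⟨le_rfl, hs.1⟩ hr hr.1; linarith
      · have := hcon r ⟨hr.1, hr.2.trans hs.2⟩; linarith)
    have hls := hpos s hs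
    rw [abs_of_nonneg hls] at hth
    have h1 : C / t * lam s * N ≤ C / c1 * lam s * A := by
      calc C / t * lam s * N ≤ C / t * lam s * (t / c1 * A) := by gcongr
        _ = C / c1 * lam s * A := by field_simp
    have h2 : C / c1 * lam s * A ≤ t / 4 * lam s * a s := by
      have h3 : C / c1 ≤ t / 8 := by rw [div_le_div_iff₀ hc1 (by norm_num)]; linarith
      calc C / c1 * lam s * A ≤ t / 8 * lam s * (2 * a s) := by gcongr; linarith
        _ = t / 4 * lam s * a s := by ring
    have h4 : t / 2 * lam s * a s ≤ t * (lam s * k s) * a s := by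
      have hk := hS.le_k s hs
      have ha0 : 0 ≤ a s := by linarith
      have : t * lam s * a s * (1 / 2) ≤ t * lam s * a s * k s := by gcongr
      nlinarith
    have h5 := (abs_le.1 (hth.trans (h1.trans h2))).1
    have h6 := hcon s hs
    nlinarith
  -- `a > A / 2` on `[x, y]`
  have hhalf : ∀ s ∈ Icc x y, A / 2 < a s := by
    by_contra hne
    push Not at hne
    obtain ⟨s', hs', hs'2⟩ := hne
    set Z : Set ℝ := Icc x y ∩ a ⁻¹' (Iic (A / 2)) with hZ
    have hZc : IsClosed Z := hac.preimage_isClosed_of_isClosed isClosed_Icc isClosed_Iic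
    have hZne : Z.Nonempty := ⟨s', hs', hs'2⟩
    have hZb : BddBelow Z := ⟨x, fun s hs => hs.1.1⟩
    have hmem := hZc.csInf_mem hZne hZb
    set s1 := sInf Z with hs1
    have hlt : ∀ r, x ≤ r → r < s1 → A / 2 < a r := by
      intro r hr1 hr2
      by_contra h
      push Not at h
      exact absurd (csInf_le hZb (show r ∈ Z from ⟨⟨hr1, hr2.le.trans hmem.1.2⟩, h⟩))
        (not_le.2 hr2)
    have hm2 : MonotoneOn (fun s => a s + s) (Icc x s1) := by
      refine monotoneOn_of_hasDerivAt (f' := fun s => (t * (lam s * k s) * a s - c s + th s) + 1)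
        ((hac.mono (Icc_subset_Icc le_rfl hmem.1.2)).add continuousOn_id) ?_ ?_
      · intro s hs
        exact (hS.da s ⟨hs.1.le, hs.2.le.trans hmem.1.2⟩).add (hasDerivAt_id s)
      · intro s hs
        have h1 := hdiff s ⟨hs.1.le, hs.2.le.trans hmem.1.2⟩
          (fun r hr => (hlt r hr.1 (hr.2.trans hs.2)).le) (hlt s hs.1.le hs.2).le
        have h2 : 0 ≤ t / 4 * lam s * a s := by
          have := hpos s ⟨hs.1.le, hs.2.le.trans hmem.1.2⟩
          have h3 := hlt s hs.1.le hs.2
          have h4 : 0 ≤ a s := by linarith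
          positivity
        linarith
    have h1 := hm2 ⟨le_rfl, hmem.1.1⟩ ⟨hmem.1.1, le_rfl⟩ hmem.1.1
    have h2 : a s1 ≤ A / 2 := hmem.2
    have h3 : s1 ≤ y := hmem.1.2
    simp only at h1
    linarith
  -- exponential growth
  have hgrow : ∀ s ∈ Icc x y, A / 2 * Real.exp (t / 4 * (Lam s - Lam x)) ≤ a s := by
    intro s hs
    have hm3 : MonotoneOn (fun s => a s * Real.exp (-(t / 4 * (Lam s - Lam x))) + s)
        (Icc x y) := by
      refine monotoneOn_of_hasDerivAt (f' := fun s =>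
        ((t * (lam s * k s) * a s - c s + th s) * Real.exp (-(t / 4 * (Lam s - Lam x))) +
          a s * (Real.exp (-(t / 4 * (Lam s - Lam x))) * (-(t / 4 * lam s)))) + 1) ?_ ?_ ?_
      · exact (hac.mul (by fun_prop)).add continuousOn_id
      · intro r hr
        have e1 : HasDerivAt (fun s => -(t / 4 * (Lam s - Lam x))) (-(t / 4 * lam r)) r :=
          (((hLam r).sub_const _).const_mul _).neg
        exact ((hS.da r ⟨hr.1.le, hr.2.le⟩).mul e1.exp).add (hasDerivAt_id r)
      · intro r hr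
        have hr' : r ∈ Icc x y := ⟨hr.1.le, hr.2.le⟩
        have h1 := hdiff r hr' (fun q hq => (hhalf q ⟨hq.1, hq.2.le.trans hr'.2⟩).le)
          (hhalf r hr').le
        have h2 : Real.exp (-(t / 4 * (Lam r - Lam x))) ≤ 1 := by
          rw [Real.exp_le_one_iff]
          have := hmono ⟨le_rfl, hxy.le⟩ hr' hr'.1
          have : 0 ≤ t / 4 * (Lam r - Lam x) := mul_nonneg (by positivity) (by linarith)
          linarith
        have h3 := Real.exp_pos (-(t / 4 * (Lam r - Lam x)))
        nlinarith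
    have h1 := hm3 ⟨le_rfl, hxy.le⟩ hs hs.1
    simp only [sub_self, mul_zero, neg_zero, Real.exp_zero, mul_one] at h1
    have h2 : A / 2 ≤ a s * Real.exp (-(t / 4 * (Lam s - Lam x))) := by
      have := hs.2
      linarith
    have h3 := Real.exp_pos (t / 4 * (Lam s - Lam x))
    calc A / 2 * Real.exp (t / 4 * (Lam s - Lam x))
        ≤ a s * Real.exp (-(t / 4 * (Lam s - Lam x))) * Real.exp (t / 4 * (Lam s - Lam x)) := by
          gcongr
      _ = a s := by rw [mul_assoc, ← Real.exp_add]; simp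
  -- conclusion
  have hA0 : 0 < A := by linarith
  have hcm : MonotoneOn c (Icc x y) := by
    refine monotoneOn_of_hasDerivAt hcc (fun r hr => hS.dc r ⟨hr.1.le, hr.2.le⟩)
      (fun r hr => ?_)
    have := hhalf r ⟨hr.1.le, hr.2.le⟩
    linarith
  set G : ℝ := A / 2 * Real.exp (t / 4 * ω) with hG
  have hcm2 : MonotoneOn (fun s => c s - G * s) (Icc z y) := by
    refine monotoneOn_of_hasDerivAt (f' := fun s => a s - G * 1)
      ((hcc.mono (Icc_subset_Icc hz.1.le le_rfl)).sub (by fun_prop)) ?_ ?_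
    · intro r hr
      exact (hS.dc r ⟨hz.1.le.trans hr.1.le, hr.2.le⟩).sub ((hasDerivAt_id r).const_mul G)
    · intro r hr
      have hr' : r ∈ Icc x y := ⟨hz.1.le.trans hr.1.le, hr.2.le⟩
      have h1 := hgrow r hr'
      have h2 : Lam z ≤ Lam r := hmono ⟨hz.1.le, hz.2.le⟩ hr' hr.1.le
      have h3 : G ≤ A / 2 * Real.exp (t / 4 * (Lam r - Lam x)) := by
        rw [hG]; gcongr; linarith
      linarith
  have h1 := hcm2 ⟨le_rfl, hz.2.le⟩ ⟨hz.2.le, le_rfl⟩ hz.2.le
  have h2 : - N ≤ c z := hc.trans (hcm ⟨le_rfl, hxy.le⟩ ⟨hz.1.le, hz.2.le⟩ hz.1.le)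
  have h3 : c y ≤ 1 := hcon y ⟨hxy.le, le_rfl⟩
  simp only at h1
  have h4 : G * (y - z) ≤ 1 + N := by nlinarith
  have hexp : (t / 4 * ω) ^ 2 / 2 ≤ Real.exp (t / 4 * ω) := by
    have := Real.quadratic_le_exp_of_nonneg (x := t / 4 * ω) (by positivity)
    have h5 : 0 ≤ t / 4 * ω := by positivity
    linarith
  have h5 : c1 / t * N / 2 * ((t / 4 * ω) ^ 2 / 2) * (y - z) ≤ G * (y - z) := by
    rw [hG]; gcongr
  have h6 : c1 / t * N / 2 * ((t / 4 * ω) ^ 2 / 2) * (y - z) =
      N * (t * (c1 * (y - z) * ω ^ 2)) / 64 := by field_simp; ring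
  have h7 : N * 128 / 64 ≤ N * (t * (c1 * (y - z) * ω ^ 2)) / 64 := by gcongr
  linarith

end Pool.Agent.W550.LG
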