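import Pool.Agent.W550.LG.Fin
import Pool.Agent.W550.LG.Sel
import Pool.Agent.W550.LG.Extr
import Pool.Agent.W550.LG.Mono
import Pool.Agent.W550.LG.Rot
import Pool.Agent.W550.LG.Up
import Pool.Agent.W298.LG.Ext
import Pool.Agent.W298.LG.Rep
import Pool.Agent.W298.LG.T1
import Pool.Agent.W298.LG.Red
import Pool.Agent.W577.LG.T2
import Pool.Agent.W414.LG.LA
import Pool.Agent.W414.LG.Iter
import Pool.Agent.W977.LG_B1
import Pool.Agent.W540.LG.D1
import Pool.Agent.W885.LG_D2
import Pool.Agent.W345.LG_D3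
import Pool.Agent.W168.LG_DN
import Pool.Agent.W304.LG_LB
import Pool.Agent.W377.LG_BLK
import Pool.Agent.W345.LG_Rolle

/-!
# Laugwitz' problem, Part V: the assembly, up to `S_T3`.
-/

namespace Pool.Agent.W550.LG

theorem partV_of_T3 (h3 : S_T3) : PartV :=
  Pool.Agent.W298.LG.ext
    (s_fin Pool.Agent.W298.LG.red
      (Pool.Agent.W414.LG.la Pool.Agent.W298.LG.rep h3 Pool.Agent.W298.LG.t1)
      (Pool.Agent.W304.LGLB.main
        (Pool.Agent.W977.LG.b1 Pool.Agent.W298.LG.rep Pool.Agent.W577.LG.s_T2)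
        s_rot
        (Pool.Agent.W168.LG.main Pool.Agent.W540.LG.D1.main Pool.Agent.W885.LGD2.s_D2
          Pool.Agent.W345.LGD3.d3)
        s_up)
      (s_sel (Pool.Agent.W377.LG.blk s_extr) Pool.Agent.W345.LGRolle.rolle
        Pool.Agent.W414.LG.iter (s_mono s_extr)))

end Pool.Agent.W550.LG
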